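import Pool.Agent.DPL.StmtsB

/-!
# HYP, DIF, MNB (squad DPL): binomial identities
-/

set_option autoImplicit false

namespace Pool.Agent.DPL.H17

open Finset Polynomial Pool.Agent.DPS

/-- **HYP** -/
theorem hyp : HYPStmt := by
  intro N K s v hKN hs hv
  obtain ⟨d, rfl⟩ := Nat.exists_eq_add_of_le hv
  rw [show v + d + 1 = v + (d + 1) by ring, Finset.sum_range_add]
  have h0 : ∑ x ∈ range v, pc N K (v + d) x * x.choose v = 0 := by
    refine Finset.sum_eq_zero fun x hx => ?_
    rw [Nat.choose_eq_zero_of_lt (mem_range.1 hx), mul_zero]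
  rw [h0, zero_add]
  have h1 : ∀ x ∈ range (d + 1), pc N K (v + d) (v + x) * (v + x).choose v =
      (v + d).choose v * (d.choose x * (N - (v + d)).choose (N - K - v - x)) := by
    intro x hx
    have hx' : x ≤ d := Nat.lt_succ_iff.1 (mem_range.1 hx)
    have hc := Nat.choose_mul (n := v + d) (k := v + x) (s := v) (by omega)
    rw [Nat.add_sub_cancel_left, Nat.add_sub_cancel_left] at hc
    rw [pc, show N - K - (v + x) = N - K - v - x by omega]
    calc (v + d).choose (v + x) * (N - (v + d)).choose (N - K - v - x) * (v + x).choose v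
        = ((v + d).choose (v + x) * (v + x).choose v) *
            (N - (v + d)).choose (N - K - v - x) := by ring
      _ = _ := by rw [hc]; ring
  rw [Finset.sum_congr rfl h1, ← Finset.mul_sum]
  congr 1
  have h2 : ∑ x ∈ range (d + 1), d.choose x * (N - (v + d)).choose (N - K - v - x) =
      ∑ x ∈ range (N - K - v + 1), d.choose x * (N - (v + d)).choose (N - K - v - x) := by
    refine Finset.sum_subset ?_ ?_
    · intro x hx
      rw [mem_range] at hx ⊢
      omega
    · intro x _ hx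
      rw [mem_range, not_lt] at hx
      rw [Nat.choose_eq_zero_of_lt (by omega), zero_mul]
  rw [h2]
  have h3 := Nat.add_choose_eq d (N - (v + d)) (N - K - v)
  rw [Finset.Nat.sum_antidiagonal_eq_sum_range_succ
    (fun a b => d.choose a * (N - (v + d)).choose b)] at h3
  rw [← h3, show d + (N - (v + d)) = N - v by omega]
  exact Nat.choose_symm_of_eq_add (by omega)

/-- the recursion for the alternating sums -/
theorem alt_rec (a : ℕ → ℝ) (m : ℕ) :
    ∑ w ∈ range (m + 1 + 1), (-1 : ℝ) ^ w * ((m + 1).choose w : ℝ) / a w =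
      ∑ w ∈ range (m + 1), (-1 : ℝ) ^ w * (m.choose w : ℝ) / a w -
        ∑ w ∈ range (m + 1), (-1 : ℝ) ^ w * (m.choose w : ℝ) / a (w + 1) := by
  rw [Finset.sum_range_succ' _ (m + 1)]
  have h1 : ∑ w ∈ range (m + 1), (-1 : ℝ) ^ w * (m.choose w : ℝ) / a w =
      ∑ w ∈ range (m + 1), (-1 : ℝ) ^ (w + 1) * (m.choose (w + 1) : ℝ) / a (w + 1) +
        (-1 : ℝ) ^ 0 * (m.choose 0 : ℝ) / a 0 := by
    have h2 := Finset.sum_range_succ (fun w => (-1 : ℝ) ^ w * (m.choose w : ℝ) / a w) (m + 1)
    rw [Finset.sum_range_succ' _ (m + 1)] at h2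
    have h3 : (m.choose (m + 1) : ℝ) = 0 := by rw [Nat.choose_succ_self]; simp
    rw [h3, mul_zero, zero_div, add_zero] at h2
    exact h2.symm
  rw [h1]
  have h4 : ∀ w ∈ range (m + 1), (-1 : ℝ) ^ (w + 1) * ((m + 1).choose (w + 1) : ℝ) / a (w + 1) =
      (-1 : ℝ) ^ (w + 1) * (m.choose (w + 1) : ℝ) / a (w + 1) -
        (-1 : ℝ) ^ w * (m.choose w : ℝ) / a (w + 1) := by
    intro w _
    rw [Nat.choose_succ_succ]
    push_cast
    ring
  rw [Finset.sum_congr rfl h4, Finset.sum_sub_distrib]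
  simp only [Nat.choose_zero_right]
  ring

/-- **DIF** -/
theorem dif : DIFStmt := by
  intro N K m
  induction m generalizing N with
  | zero =>
    intro h
    simp
  | succ m ih =>
    intro h
    obtain ⟨M, rfl⟩ : ∃ M, N = M + 1 := ⟨N - 1, by omega⟩
    rw [alt_rec (fun w => ((M + 1 - w).choose K : ℝ)) m, ih (M + 1) (by omega)]
    have e : ∀ w ∈ range (m + 1), (-1 : ℝ) ^ w * (m.choose w : ℝ) /
        ((fun w => ((M + 1 - w).choose K : ℝ)) (w + 1)) =
        (-1 : ℝ) ^ w * (m.choose w : ℝ) / ((M - w).choose K : ℝ) := by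
      intro w _
      have : M + 1 - (w + 1) = M - w := by omega
      simp only [this]
    rw [Finset.sum_congr rfl e, ih M (by omega)]
    obtain ⟨L, rfl⟩ : ∃ L, M = K + L := ⟨M - K, by omega⟩
    have hL : m ≤ L := by omega
    have e1 : K + L + 1 - K = L + 1 := by omega
    have e2 : K + L - K = L := by omega
    rw [e1, e2, Nat.succ_descFactorial_succ, Nat.ascFactorial_succ]
    have hc := Nat.choose_mul_succ_eq (K + L) K
    rw [e1] at hc
    have hc' : ((K + L).choose K : ℝ) * ((K : ℝ) + L + 1) =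
        ((K + L + 1).choose K : ℝ) * ((L : ℝ) + 1) := by exact_mod_cast hc
    have hd : (L + 1).descFactorial (m + 1) = (L + 1 - m) * (L + 1).descFactorial m :=
      Nat.descFactorial_succ _ _
    rw [Nat.succ_descFactorial_succ] at hd
    have hd' : ((L : ℝ) + 1) * (L.descFactorial m : ℝ) =
        ((L : ℝ) + 1 - m) * ((L + 1).descFactorial m : ℝ) := by
      have h5 : ((L + 1 - m : ℕ) : ℝ) = (L : ℝ) + 1 - m := by
        rw [Nat.cast_sub (by omega)]; push_cast; ring
      rw [← h5]
      exact_mod_cast hd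
    have p1 : (0 : ℝ) < ((K + L).choose K : ℝ) := by
      exact_mod_cast Nat.choose_pos (by omega)
    have p2 : (0 : ℝ) < ((K + L + 1).choose K : ℝ) := by
      exact_mod_cast Nat.choose_pos (by omega)
    have p3 : (0 : ℝ) < (L.descFactorial m : ℝ) := by
      exact_mod_cast Nat.descFactorial_pos.2 hL
    have p4 : (0 : ℝ) < ((L + 1).descFactorial m : ℝ) := by
      exact_mod_cast Nat.descFactorial_pos.2 (by omega)
    have p5 : (0 : ℝ) < (L : ℝ) + 1 := by positivity
    have f1 : (-1 : ℝ) ^ m * (K.ascFactorial m : ℝ) /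
        (((L + 1).descFactorial m : ℝ) * ((K + L + 1).choose K : ℝ)) =
        (-1 : ℝ) ^ m * (K.ascFactorial m : ℝ) * ((L : ℝ) + 1 - m) /
        (((L : ℝ) + 1) * (L.descFactorial m : ℝ) * ((K + L + 1).choose K : ℝ)) := by
      rw [div_eq_div_iff (by positivity) (by positivity), hd']
      ring
    have f2 : (-1 : ℝ) ^ m * (K.ascFactorial m : ℝ) /
        ((L.descFactorial m : ℝ) * ((K + L).choose K : ℝ)) =
        (-1 : ℝ) ^ m * (K.ascFactorial m : ℝ) * ((K : ℝ) + L + 1) /
        (((L : ℝ) + 1) * (L.descFactorial m : ℝ) * ((K + L + 1).choose K : ℝ)) := by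
      rw [div_eq_div_iff (by positivity) (by positivity)]
      calc (-1 : ℝ) ^ m * (K.ascFactorial m : ℝ) *
            (((L : ℝ) + 1) * (L.descFactorial m : ℝ) * ((K + L + 1).choose K : ℝ))
          = (-1 : ℝ) ^ m * (K.ascFactorial m : ℝ) * (L.descFactorial m : ℝ) *
            (((K + L + 1).choose K : ℝ) * ((L : ℝ) + 1)) := by ring
        _ = _ := by rw [← hc']; ring
    rw [f1, f2]
    push_cast
    rw [← sub_div]
    congr 1
    ring

/-- **MNB** -/
theorem mnb : MNBStmt := by
  intro N K t u i hN hut huK hiu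
  refine ⟨by unfold bb; positivity, ?_⟩
  obtain ⟨m, rfl⟩ : ∃ m, u = i + 1 + m := ⟨u - (i + 1), by omega⟩
  obtain ⟨L, rfl⟩ : ∃ L, N = i + 1 + K + m + L := by
    refine ⟨N - (i + 1 + K + m), ?_⟩
    have h1 : (i + 1 + m + 1) * K + 1 ≤ N := by
      refine le_trans ?_ hN
      have := Nat.mul_le_mul_right K (Nat.succ_le_succ hut)
      simpa using this
    have h2 : i + 1 + m + K ≤ (i + 1 + m + 1) * K := by
      have h3 : 1 ≤ K := by omega
      nlinarith
    omega
  unfold bb
  have e1 : i + 1 + m - i = m + 1 := by omega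
  have e2 : i + 1 + m - (i + 1) = m := by omega
  have e3 : i + 1 + K + m + L - i - K = m + L + 1 := by omega
  have e4 : i + 1 + K + m + L - (i + 1) - K = m + L := by omega
  have e5 : i + 1 + K + m + L - i = K + m + L + 1 := by omega
  have e6 : i + 1 + K + m + L - (i + 1) = K + m + L := by omega
  rw [e1, e2, e3, e4, e5, e6, Nat.succ_descFactorial_succ, Nat.ascFactorial_succ]
  have ha : ((i + 1 + m).choose i : ℝ) * ((m : ℝ) + 1) =
      ((i + 1 + m).choose (i + 1) : ℝ) * ((i : ℝ) + 1) := by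
    have h1 := Nat.choose_succ_right_eq (i + 1 + m) i
    rw [e1] at h1
    exact_mod_cast h1.symm
  have hc : ((K + m + L).choose K : ℝ) * ((K : ℝ) + m + L + 1) =
      ((K + m + L + 1).choose K : ℝ) * ((m : ℝ) + L + 1) := by
    have h1 := Nat.choose_mul_succ_eq (K + m + L) K
    rw [show K + m + L + 1 - K = m + L + 1 by omega] at h1
    exact_mod_cast h1
  have p1 : (0 : ℝ) < ((K + m + L).choose K : ℝ) := by
    exact_mod_cast Nat.choose_pos (by omega)
  have p2 : (0 : ℝ) < ((K + m + L + 1).choose K : ℝ) := by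
    exact_mod_cast Nat.choose_pos (by omega)
  have p3 : (0 : ℝ) < ((m + L).descFactorial m : ℝ) := by
    exact_mod_cast Nat.descFactorial_pos.2 (by omega)
  have p4 : (0 : ℝ) < (m : ℝ) + L + 1 := by positivity
  have p5 : (0 : ℝ) < (m : ℝ) + 1 := by positivity
  have p6 : (0 : ℝ) ≤ (K.ascFactorial m : ℝ) := by positivity
  have p7 : (0 : ℝ) ≤ ((i + 1 + m).choose (i + 1) : ℝ) := by positivity
  have key : ((i : ℝ) + 1) * ((K : ℝ) + m) ≤ ((m : ℝ) + 1) * ((K : ℝ) + m + L + 1) := by
    have h1 : (i + 1 + m + 1) * K + 1 ≤ i + 1 + K + m + L := by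
      refine le_trans ?_ hN
      have := Nat.mul_le_mul_right K (Nat.succ_le_succ hut)
      simpa using this
    have h1' : ((i : ℝ) + 1 + m + 1) * K + 1 ≤ i + 1 + K + m + L := by exact_mod_cast h1
    have h2' : ((i : ℝ) + 1 + m) ≤ K := by exact_mod_cast huK
    have hi0 : (0 : ℝ) ≤ i := by positivity
    have hm0 : (0 : ℝ) ≤ m := by positivity
    have hK0 : (0 : ℝ) ≤ K := by positivity
    have h3 := mul_le_mul_of_nonneg_left h1' p5.le
    have h4 := mul_le_mul_of_nonneg_right h2' (by positivity : (0 : ℝ) ≤ ((m : ℝ) + 1) ^ 2)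
    have h5 : (0 : ℝ) ≤ ((i : ℝ) + 1) * (m : ℝ) ^ 2 := by positivity
    have h6 : (0 : ℝ) ≤ (m : ℝ) * (i + 1) * K := by positivity
    have h7 : (0 : ℝ) ≤ (m : ℝ) * (m + 1) ^ 2 := by positivity
    nlinarith
  have f1 : ((i + 1 + m).choose i : ℝ) * (((K + m) * K.ascFactorial m : ℕ) : ℝ) /
      ((((m + L + 1) * (m + L).descFactorial m : ℕ) : ℝ) * ((K + m + L + 1).choose K : ℝ)) =
      (((i + 1 + m).choose (i + 1) : ℝ) * (K.ascFactorial m : ℝ)) * (((i : ℝ) + 1) * (K + m)) /
      ((((m + L).descFactorial m : ℝ) * ((K + m + L).choose K : ℝ)) *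
        (((m : ℝ) + 1) * (K + m + L + 1))) := by
    push_cast
    rw [div_eq_div_iff (by positivity) (by positivity)]
    calc ((i + 1 + m).choose i : ℝ) * (((K : ℝ) + m) * (K.ascFactorial m : ℝ)) *
          ((((m + L).descFactorial m : ℝ) * ((K + m + L).choose K : ℝ)) *
            (((m : ℝ) + 1) * (K + m + L + 1)))
        = (((i + 1 + m).choose i : ℝ) * ((m : ℝ) + 1)) * (((K : ℝ) + m) * (K.ascFactorial m : ℝ)) *
          ((m + L).descFactorial m : ℝ) *
            (((K + m + L).choose K : ℝ) * ((K : ℝ) + m + L + 1)) := by ring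
      _ = _ := by rw [ha, hc]; ring
  rw [f1, mul_div_mul_comm]
  refine mul_le_of_le_one_right (by positivity) ?_
  rw [div_le_one (by positivity)]
  exact key

end Pool.Agent.DPL.H17
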